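import Pool.Agent.helper38.OP.Spec

/-!
# Row op:AR2 (after `Pool/Agent/helper58/OM/ARC.lean`)
-/

set_option autoImplicit false

namespace Pool.Agent.OP

open Finset Real Pool.Agent.AT Pool.Agent.helper85.FC Pool.Agent.OM

theorem AR2_dvd (a b L m₁ κ : ℕ) (h1 : m₁ ≤ L) (h2 : 1 ≤ κ) (h3 : κ < L) :
    ((a : ℤ) ^ m₁ * ((a : ℤ) ^ κ - (b : ℤ) ^ κ)) ∣ ((MM1 a b L : ℕ) : ℤ) := by
  rw [← Int.natAbs_dvd_natAbs, Int.natAbs_mul, Int.natAbs_pow, Int.natAbs_natCast, Int.natAbs_natCast]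
  unfold MM1
  refine mul_dvd_mul (pow_dvd_pow a h1) ?_
  exact Finset.dvd_prod_of_mem (fun k => ((a : ℤ) ^ k - (b : ℤ) ^ k).natAbs) (Finset.mem_Ico.mpr ⟨h2, h3⟩)

theorem AR2 : AR2_stmt := by
  intro a b L ha hab α β ρ m₁ m₂ hm₁ hm hL hρ h1 h2
  obtain ⟨n₁, hn₁⟩ := h1
  obtain ⟨n₂, hn₂⟩ := h2
  obtain ⟨κ, hκ⟩ : ∃ κ, m₂ = m₁ + κ := ⟨m₂ - m₁, by omega⟩
  have hκ1 : 1 ≤ κ := by omega
  have hκL : κ < L := by omega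
  obtain ⟨T, hT⟩ := AR2_dvd a b L m₁ κ (by omega) hκ1 hκL
  set c : ℤ := (a : ℤ) ^ m₁ * ((a : ℤ) ^ κ - (b : ℤ) ^ κ) with hc
  have ha0 : (0 : ℝ) < a := by exact_mod_cast ha
  have hb0 : (0 : ℝ) ≤ b := Nat.cast_nonneg _
  have hbκ0 : (0 : ℝ) ≤ (b : ℝ) ^ κ := by positivity
  have key : |(c : ℝ) * α - ((n₂ - (b : ℤ) ^ κ * n₁ : ℤ) : ℝ)| ≤ 2 * ρ * ((b : ℝ) ^ m₁ * (b : ℝ) ^ κ) := by
    have e1 : (c : ℝ) * α - ((n₂ - (b : ℤ) ^ κ * n₁ : ℤ) : ℝ) =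
        ((a : ℝ) ^ m₂ * α + (b : ℝ) ^ m₂ * β - n₂) - (b : ℝ) ^ κ * ((a : ℝ) ^ m₁ * α + (b : ℝ) ^ m₁ * β - n₁) := by
      rw [hc, hκ, pow_add, pow_add]
      push_cast
      ring
    rw [e1]
    refine (abs_sub _ _).trans ?_
    rw [abs_mul, abs_of_nonneg hbκ0]
    have h3 : (b : ℝ) ^ κ * |(a : ℝ) ^ m₁ * α + (b : ℝ) ^ m₁ * β - n₁| ≤ (b : ℝ) ^ κ * (ρ * (b : ℝ) ^ m₁) :=
      mul_le_mul_of_nonneg_left hn₁ hbκ0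
    have h4 : |(a : ℝ) ^ m₂ * α + (b : ℝ) ^ m₂ * β - n₂| ≤ ρ * ((b : ℝ) ^ m₁ * (b : ℝ) ^ κ) := by
      rw [← pow_add, ← hκ]
      exact hn₂
    nlinarith
  have hM : ((MM1 a b L : ℕ) : ℝ) = (c : ℝ) * (T : ℝ) := by
    have : (((MM1 a b L : ℕ) : ℤ) : ℝ) = ((c * T : ℤ) : ℝ) := by rw [hT]
    push_cast at this
    exact this
  have hM2 : ((MM1 a b L : ℕ) : ℝ) = |(c : ℝ)| * |(T : ℝ)| := by
    rw [← abs_mul, ← hM, abs_of_nonneg (Nat.cast_nonneg _)]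
  have hak : 2 * (a : ℝ) ^ κ ≤ (b : ℝ) ^ κ := by
    have h5 : (2 : ℝ) * a ≤ b := by exact_mod_cast hab
    have h6 : (2 * (a : ℝ)) ^ κ ≤ (b : ℝ) ^ κ := pow_le_pow_left₀ (by positivity) h5 κ
    rw [mul_pow] at h6
    have h7 : (2 : ℝ) ≤ 2 ^ κ := by
      calc (2 : ℝ) = 2 ^ 1 := by norm_num
        _ ≤ 2 ^ κ := pow_le_pow_right₀ (by norm_num) hκ1
    have h8 : (0 : ℝ) ≤ (a : ℝ) ^ κ := by positivity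
    nlinarith
  have hcab : (a : ℝ) ^ m₁ * (b : ℝ) ^ κ ≤ 2 * |(c : ℝ)| := by
    have h9 : (c : ℝ) = (a : ℝ) ^ m₁ * ((a : ℝ) ^ κ - (b : ℝ) ^ κ) := by
      rw [hc]
      push_cast
      ring
    have h10 : (0 : ℝ) ≤ (a : ℝ) ^ m₁ := by positivity
    have h11 : |(c : ℝ)| = (a : ℝ) ^ m₁ * ((b : ℝ) ^ κ - (a : ℝ) ^ κ) := by
      rw [h9, abs_mul, abs_of_nonneg h10, abs_sub_comm, abs_of_nonneg]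
      have h12 : (0 : ℝ) ≤ (a : ℝ) ^ κ := by positivity
      linarith
    rw [h11]
    nlinarith
  refine ⟨T * (n₂ - (b : ℤ) ^ κ * n₁), ?_⟩
  have e2 : ((MM1 a b L : ℕ) : ℝ) * α - ((T * (n₂ - (b : ℤ) ^ κ * n₁) : ℤ) : ℝ) =
      (T : ℝ) * ((c : ℝ) * α - ((n₂ - (b : ℤ) ^ κ * n₁ : ℤ) : ℝ)) := by
    rw [hM]
    push_cast
    ring
  rw [e2, abs_mul, le_div_iff₀ (by positivity)]
  have h13 : |(T : ℝ)| * |(c : ℝ) * α - ((n₂ - (b : ℤ) ^ κ * n₁ : ℤ) : ℝ)| ≤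
      |(T : ℝ)| * (2 * ρ * ((b : ℝ) ^ m₁ * (b : ℝ) ^ κ)) := mul_le_mul_of_nonneg_left key (abs_nonneg _)
  have h14 : |(T : ℝ)| * (2 * ρ * ((b : ℝ) ^ m₁ * (b : ℝ) ^ κ)) * (a : ℝ) ^ m₁ =
      (2 * ρ * (b : ℝ) ^ m₁ * |(T : ℝ)|) * ((a : ℝ) ^ m₁ * (b : ℝ) ^ κ) := by ring
  have h15 : (2 * ρ * (b : ℝ) ^ m₁ * |(T : ℝ)|) * ((a : ℝ) ^ m₁ * (b : ℝ) ^ κ) ≤
      (2 * ρ * (b : ℝ) ^ m₁ * |(T : ℝ)|) * (2 * |(c : ℝ)|) := mul_le_mul_of_nonneg_left hcab (by positivity)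
  have h16 : (2 * ρ * (b : ℝ) ^ m₁ * |(T : ℝ)|) * (2 * |(c : ℝ)|) = 4 * ((MM1 a b L : ℕ) : ℝ) * ρ * (b : ℝ) ^ m₁ := by
    rw [hM2]
    ring
  have h17 := mul_le_mul_of_nonneg_right h13 (by positivity : (0 : ℝ) ≤ (a : ℝ) ^ m₁)
  linarith

end Pool.Agent.OP
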